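import Pool.Agent.H50.LSH.MiE
import Pool.Agent.H7.MIC.Plf
import Pool.Agent.H12.LSH.Sha
import Pool.Agent.H12.MICA.Ent2

/-!
# What the context of the own leaf says on the data of the line

`a` and the own pair `o'` are on the line through `o` in the direction `(an, -be)`, on different
sides of `o`. The context at `o'` says little on the data `Vd` of the line given the context at `o`
and the exact time, on an event of the line (`h2_ctx`).
-/

set_option autoImplicit false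

namespace Pool.LSH

open Finset
open Pool.Agent.H49.Ent Pool.Agent.H32.Dense Pool.STK Pool.STAT Pool.MIC Pool.MicA Pool.PTH
open Pool.MIC.Frm (nat pt)
open Pool.BFL (Pl Pb)
open Pool.PLK Pool.GSD
open Pool.MIC7 (flr)

/-- The places of (H2): `a` and `o'` on the line through `o` in the direction `(an, -be)`. -/
structure Plg (D : NDat2) (n z X c M : ℕ) {k : ℕ} (π : Pls k) (a : ℕ × ℕ) (an be s S' : ℕ) :
    Prop where
  a_eq : a = (π.o.1 + an, π.o.2 - be)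
  be_le : be ≤ π.o.2
  o1 : S' * an ≤ π.o.1
  o2 : π.o.2 + S' * be < M
  r1 : a.1 + s * an < M
  r2 : s * be ≤ a.2
  rU : a.1 + X / z ≤ M
  /-- the coordinates with rank are deeper at the right end -/
  nar : ∀ l, 1 ≤ l → l < n → π.rk l < k →
    D.g a.1 a.2 l + X ≤ D.g (a.1 + s * an) (a.2 - s * be) l + c * z
  /-- the others are deeper at `o` -/
  wid : ∀ l, 1 ≤ l → l < n → ¬ π.rk l < k → D.g a.1 a.2 l + X ≤ D.g π.o.1 π.o.2 l + c * z
  /-- the other places are coarser, in the window of `a` -/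
  hor : ∀ r, (π.p r).2 = a.2 ∧ (π.p r).1 ≤ a.1
  lev : ∀ r l, 1 ≤ l → l < n → D.g (π.p r).1 (π.p r).2 l ≤ D.g a.1 a.2 l + c * z

/-- Floors of near numbers. -/
theorem fl_two {A : ℕ} {x x' y y' : ℝ} (h : |x - y| ≤ A) (h' : |x' - y'| ≤ A)
    (e : ⌊x⌋ = ⌊x'⌋) : |⌊y⌋ - ⌊y'⌋| ≤ ((2 * A + 2 : ℕ) : ℤ) := by
  refine flr (R := 2 * A + 1) ?_
  have h1 : |x - x'| ≤ 1 := by
    have a1 := Int.floor_le x
    have a2 := Int.lt_floor_add_one x
    have a3 := Int.floor_le x'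
    have a4 := Int.lt_floor_add_one x'
    rw [e] at a1 a2
    rw [abs_le]
    constructor <;> linarith
  push_cast
  rw [abs_le] at h h' h1 ⊢
  constructor <;> linarith

theorem fl_scale {A : ℕ} {x x' y y' t : ℝ} (h : |x - y| ≤ A) (h' : |x' - y'| ≤ A)
    (e : ⌊x⌋ = ⌊x'⌋) (ht0 : 0 ≤ t) (ht : t ≤ 1) :
    |⌊t * y⌋ - ⌊t * y'⌋| ≤ ((2 * A + 2 : ℕ) : ℤ) := by
  refine flr (R := 2 * A + 1) ?_
  have h1 : |x - x'| ≤ 1 := by
    have a1 := Int.floor_le x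
    have a2 := Int.lt_floor_add_one x
    have a3 := Int.floor_le x'
    have a4 := Int.lt_floor_add_one x'
    rw [e] at a1 a2
    rw [abs_le]
    constructor <;> linarith
  rw [← mul_sub, abs_mul, abs_of_nonneg ht0]
  have h2 : |y - y'| ≤ ((2 * A + 1 : ℕ) : ℝ) := by
    push_cast
    rw [abs_le] at h h' h1 ⊢
    constructor <;> linarith
  calc t * |y - y'| ≤ 1 * |y - y'| := mul_le_mul_of_nonneg_right ht (abs_nonneg _)
    _ ≤ _ := by rw [one_mul]; exact h2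

section

variable {D : NDat2} {n K J a₀ w₀ z M k w X c : ℕ} {lam gam : ℕ → ℝ} {κ C₁ : ℝ} {q : D.Ω → ℝ}
  {π : Pls k}

/-- The digits of the line and the digits at the time of the sample. -/
theorem hz_dig (hO : D.Ok2 n K J a₀ w₀ z M lam gam κ C₁ q) (hw : w ≤ J) (ω₀ : D.Ω) {ω : D.Ω}
    (hω : 0 < q ω) {b : ℕ × ℕ} (hb : Wn D n w₀ w J z X M b ω) {l : ℕ} (hl : l ≤ n) :
    |(2 : ℝ) ^ X * ztS D b.1 b.2 (D.Φ b.1 b.2) ω l -
      2 ^ X * hz D q J w ω₀ b (D.wn J w ω) l| ≤ (⌈A₀ K⌉₊ : ℕ) := by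
  have h1 := hz_near hO hw ω₀ hω hb hl
  have h2 : (0 : ℝ) < 2 ^ X := by positivity
  rw [← mul_sub, abs_mul, abs_of_pos h2]
  have h3 : (2 : ℝ) ^ X * (A₀ K / 2 ^ X) = A₀ K := by field_simp
  calc (2 : ℝ) ^ X * _ ≤ 2 ^ X * (A₀ K / 2 ^ X) := mul_le_mul_of_nonneg_left h1 h2.le
    _ = A₀ K := h3
    _ ≤ _ := Nat.le_ceil _

/-- The numbers which determine the data of the line. -/
noncomputable def vF (D : NDat2) {k : ℕ} (π : Pls k) (q : D.Ω → ℝ) (J w : ℕ) (ω₀ : D.Ω) (X : ℕ)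
    (a : ℕ × ℕ) (ω : D.Ω) : (Fin k ⊕ (Fin k × Fin k)) ⊕ Fin k → ℤ :=
  Sum.elim (Sum.elim (fun r => ⌊(2 : ℝ) ^ X * hz D q J w ω₀ a (D.wn J w ω) (π.co r)⌋)
    (fun sr => hd D π q J w ω₀ X sr.1 (D.wn J w ω) (π.co sr.2)))
    (fun r => ⌊(2 : ℝ) ^ X * (2 ^ gl D π.o (π.co r) *
      hz D q J w ω₀ (π.p r) (D.wn J w ω) (π.co r) / 2 ^ gl D (π.p r) (π.co r))⌋)

theorem hd_fun {s : Fin k} {ω₀ : D.Ω} {x x' : D.Λ × ℕ}
    (h : ∀ r : Fin k, hd D π q J w ω₀ X s x (π.co r) = hd D π q J w ω₀ X s x' (π.co r)) :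
    hd D π q J w ω₀ X s x = hd D π q J w ω₀ X s x' := by
  funext l
  by_cases h1 : π.rk l < s
  · obtain ⟨r, h2, -⟩ := of_rk (π := π) (l := l) (h1.trans s.2)
    rw [← h2]
    exact h r
  · unfold hd
    rw [if_neg h1, if_neg h1]

theorem vd_det {ω₀ : D.Ω} {a : ℕ × ℕ} (do' : Det q (D.wn J w) (D.c π.o.1 π.o.2))
    (da : Det q (D.wn J w) (D.c a.1 a.2))
    (dp : ∀ r, Det q (D.wn J w) (D.c (π.p r).1 (π.p r).2)) {ω ω' : D.Ω} (hω : 0 < q ω)
    (hω' : 0 < q ω') (e1 : D.c π.o.1 π.o.2 ω = D.c π.o.1 π.o.2 ω') (e2 : D.T ω = D.T ω')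
    (e3 : D.c a.1 a.2 ω = D.c a.1 a.2 ω')
    (e4 : ∀ r, D.c (π.p r).1 (π.p r).2 ω = D.c (π.p r).1 (π.p r).2 ω')
    (e5 : vF D π q J w ω₀ X a ω = vF D π q J w ω₀ X a ω') :
    Vd D π q J w ω₀ X a (D.wn J w ω) = Vd D π q J w ω₀ X a (D.wn J w ω') := by
  have c1 : cl D q J w ω₀ π.o (D.wn J w ω) = cl D q J w ω₀ π.o (D.wn J w ω') := by
    rw [cl_eq ω₀ do' hω, cl_eq ω₀ do' hω', e1]
  have c2 : (D.wn J w ω).2 = (D.wn J w ω').2 := by
    change D.T ω / 2 ^ (J - w) = D.T ω' / 2 ^ (J - w)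
    rw [e2]
  have c3 : cl D q J w ω₀ a (D.wn J w ω) = cl D q J w ω₀ a (D.wn J w ω') := by
    rw [cl_eq ω₀ da hω, cl_eq ω₀ da hω', e3]
  have c4 : ∀ r, cl D q J w ω₀ (π.p r) (D.wn J w ω) = cl D q J w ω₀ (π.p r) (D.wn J w ω') := by
    intro r
    rw [cl_eq ω₀ (dp r) hω, cl_eq ω₀ (dp r) hω', e4 r]
  have c5 : hn D π q J w ω₀ X a (D.wn J w ω) = hn D π q J w ω₀ X a (D.wn J w ω') := by
    funext l
    by_cases h1 : π.rk l < k
    · obtain ⟨r, h2, -⟩ := of_rk (π := π) (l := l) h1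
      unfold hn
      rw [if_pos h1, if_pos h1, ← h2]
      exact congrFun e5 (Sum.inl (Sum.inl r))
    · unfold hn
      rw [if_neg h1, if_neg h1]
  have c6 : ∀ s : Fin k, hd D π q J w ω₀ X s (D.wn J w ω) =
      hd D π q J w ω₀ X s (D.wn J w ω') := fun s =>
    hd_fun fun r => congrFun e5 (Sum.inl (Sum.inr (s, r)))
  have c7 : yd D π q J w ω₀ X (D.wn J w ω) = yd D π q J w ω₀ X (D.wn J w ω') := by
    funext r
    have h : ⌊(2 : ℝ) ^ X * (2 ^ gl D π.o (π.co r) *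
        hz D q J w ω₀ (π.p r) (D.wn J w ω) (π.co r) / 2 ^ gl D (π.p r) (π.co r))⌋ =
        ⌊(2 : ℝ) ^ X * (2 ^ gl D π.o (π.co r) *
        hz D q J w ω₀ (π.p r) (D.wn J w ω') (π.co r) / 2 ^ gl D (π.p r) (π.co r))⌋ :=
      congrFun e5 (Sum.inr r)
    unfold yd yr
    rw [h]
  have c8 : ∀ r, Zd D π q J w ω₀ X r (D.wn J w ω) = Zd D π q J w ω₀ X r (D.wn J w ω') := by
    intro r
    unfold Zd
    rw [c1, c2]
    congr 2
    funext s
    rw [c4, c6, c7]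
  unfold Vd
  rw [c1, c2, c3, c5, c7]
  congr 2
  funext r
  exact c8 r

end

/-- The event of the line. -/
def Gln (D : NDat2) (n w₀ J z : ℕ) {k : ℕ} (π : Pls k) (a : ℕ × ℕ) (ω : D.Ω) : Prop :=
  LE D J (w₀ + a.2 * z) z n a ω ∧ ∀ r, LE D J (w₀ + (π.p r).2 * z) z n (π.p r) ω

theorem rank_le {D : NDat2} {n z X c M k : ℕ} {π : Pls k} (hP : Plc D n z X c M π) : k ≤ n := by
  have h1 : Function.Injective (fun r : Fin k => (⟨π.co r, hP.co_lt r⟩ : Fin n)) :=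
    fun r r' e => hP.inj (congrArg Fin.val e)
  have h2 := Fintype.card_le_of_injective _ h1
  rwa [Fintype.card_fin, Fintype.card_fin] at h2

theorem gln_ev (n K : ℕ) (η : ℝ) (hη : 0 < η) : ∃ (κ₀ : ℝ) (z₀ : ℕ), 0 < κ₀ ∧
    ∀ (J a₀ w₀ z M X c k : ℕ) (lam gam : ℕ → ℝ) (κ κ₁ C₁ : ℝ) (D : NDat2) (q : D.Ω → ℝ)
      (π : Pls k) (a : ℕ × ℕ), z₀ ≤ z → κ₁ ≤ κ₀ →
      D.Ok2 n K J a₀ w₀ z M lam gam κ C₁ q → D.TmU J w₀ z κ₁ q → Plc D n z X c M π →
      a.1 ≤ M → a.2 ≤ M → Pb q (fun ω => ¬ Gln D n w₀ J z π a ω) ≤ η := by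
  classical
  obtain ⟨κ₀, z₀, hκ₀, h⟩ := le_ev n K (η / (n + 1)) (by positivity)
  refine ⟨κ₀, max z₀ 1, hκ₀, ?_⟩
  intro J a₀ w₀ z M X c k lam gam κ κ₁ C₁ D q π a hz hκ hO hU hP ha1 ha2
  have hz1 : 1 ≤ z := (le_max_right _ _).trans hz
  have hUb : D.TmU J w₀ z κ₀ q := TmU_mono hU hκ
  have h1 := h J a₀ w₀ z M lam gam κ C₁ D q ((le_max_left _ _).trans hz) hO hUb
  have p2 : ∀ r, (π.p r).2 ≤ M := fun r => by
    have e1 := hP.win r
    have e2 := hP.o_lt.2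
    by_contra hc
    have e3 : π.o.2 * z ≤ (π.p r).2 * z := Nat.mul_le_mul_right z (by omega)
    omega
  have hsub : Pb q (fun ω => ¬ Gln D n w₀ J z π a ω) ≤
      Pb q (fun ω => ¬ LE D J (w₀ + a.2 * z) z n a ω) +
        Pb q (fun ω => ∃ r ∈ (univ : Finset (Fin k)),
          ¬ LE D J (w₀ + (π.p r).2 * z) z n (π.p r) ω) := by
    refine (Pool.MIC.Pb_mono_ae hO.isLaw.nonneg fun ω _ hb => ?_).trans
      (Pb_or' hO.isLaw.nonneg _ _)
    by_contra hcon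
    push Not at hcon
    exact hb ⟨hcon.1, fun r => hcon.2 r (mem_univ r)⟩
  have h2 := Pool.MIC7.Pb_un hO.isLaw.nonneg (univ : Finset (Fin k))
    (fun r ω => ¬ LE D J (w₀ + (π.p r).2 * z) z n (π.p r) ω)
  have h3 : ∑ r : Fin k, Pb q (fun ω => ¬ LE D J (w₀ + (π.p r).2 * z) z n (π.p r) ω) ≤
      ∑ _r : Fin k, η / (n + 1) := Finset.sum_le_sum fun r _ => h1 _ (hP.p_lt r).le (p2 r)
  have h4 := h1 a ha1 ha2
  rw [Finset.sum_const, card_univ, Fintype.card_fin, nsmul_eq_mul] at h3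
  have h5 : (k : ℝ) ≤ n := by exact_mod_cast rank_le hP
  have h6 : (k : ℝ) * (η / (n + 1)) ≤ n * (η / (n + 1)) :=
    mul_le_mul_of_nonneg_right h5 (by positivity)
  have h7 : η / (n + 1) + n * (η / (n + 1)) = η := by
    field_simp
    ring
  linarith

open Classical in
/-- The coordinates without rank. -/
noncomputable def nrk (n : ℕ) {k : ℕ} (π : Pls k) : Finset (Fin (n - 1)) :=
  univ.filter fun l => ¬ π.rk (l + 1) < k

theorem mem_nrk {n k : ℕ} {π : Pls k} {l : Fin (n - 1)} : l ∈ nrk n π ↔ ¬ π.rk (l + 1) < k := by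
  classical
  unfold nrk
  rw [Finset.mem_filter]
  exact ⟨fun h => h.2, fun h => ⟨mem_univ _, h⟩⟩

/-- The digits at `a` of the coordinates with rank, at the time of the sample. -/
noncomputable def hA (D : NDat2) (n X : ℕ) {k : ℕ} (π : Pls k) (a : ℕ × ℕ) :
    D.Ω → Fin (n - 1) → ℤ := off (nrk n π) (hvS D (n - 1) a.1 a.2 X (D.Φ a.1 a.2))

section

variable {D : NDat2} {n K J a₀ w₀ z M k w X c : ℕ} {lam gam : ℕ → ℝ} {κ C₁ : ℝ} {q : D.Ω → ℝ}
  {π : Pls k}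

theorem hA_eq {a : ℕ × ℕ} {ω ω' : D.Ω} (h : hA D n X π a ω = hA D n X π a ω') {l : ℕ}
    (l1 : 1 ≤ l) (l2 : l < n) (hr : π.rk l < k) :
    ⌊(2 : ℝ) ^ X * ztS D a.1 a.2 (D.Φ a.1 a.2) ω l⌋ =
      ⌊(2 : ℝ) ^ X * ztS D a.1 a.2 (D.Φ a.1 a.2) ω' l⌋ := by
  have hl : l - 1 < n - 1 := by omega
  have e0 : ((⟨l - 1, hl⟩ : Fin (n - 1)) : ℕ) + 1 = l := by
    change l - 1 + 1 = l
    omega
  have e1 := off_eq h (l := ⟨l - 1, hl⟩) (by
    rw [mem_nrk, not_not, e0]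
    exact hr)
  unfold hvS hdS at e1
  rw [e0] at e1
  exact e1

theorem hv_eq {b : ℕ × ℕ} {ω ω' : D.Ω}
    (h : hvS D (n - 1) b.1 b.2 X (D.Φ b.1 b.2) ω = hvS D (n - 1) b.1 b.2 X (D.Φ b.1 b.2) ω')
    {l : ℕ} (l1 : 1 ≤ l) (l2 : l < n) :
    ⌊(2 : ℝ) ^ X * ztS D b.1 b.2 (D.Φ b.1 b.2) ω l⌋ =
      ⌊(2 : ℝ) ^ X * ztS D b.1 b.2 (D.Φ b.1 b.2) ω' l⌋ := by
  have hl : l - 1 < n - 1 := by omega
  have e0 : ((⟨l - 1, hl⟩ : Fin (n - 1)) : ℕ) + 1 = l := by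
    change l - 1 + 1 = l
    omega
  have e1 := congrFun h ⟨l - 1, hl⟩
  unfold hvS hdS at e1
  rw [e0] at e1
  exact e1

/-- The numbers of two lines. -/
theorem vF_near (hO : D.Ok2 n K J a₀ w₀ z M lam gam κ C₁ q) (hP : Plc D n z X c M π)
    (hw : w ≤ J) (ω₀ : D.Ω) {a : ℕ × ℕ} {ω ω' : D.Ω} (hω : 0 < q ω) (hω' : 0 < q ω')
    (ha : Wn D n w₀ w J z X M a ω) (ha' : Wn D n w₀ w J z X M a ω')
    (hp : ∀ r, Wn D n w₀ w J z X M (π.p r) ω) (hp' : ∀ r, Wn D n w₀ w J z X M (π.p r) ω')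
    (e1 : hA D n X π a ω = hA D n X π a ω')
    (e2 : ∀ r, hvS D (n - 1) (π.p r).1 (π.p r).2 X (D.Φ (π.p r).1 (π.p r).2) ω =
      hvS D (n - 1) (π.p r).1 (π.p r).2 X (D.Φ (π.p r).1 (π.p r).2) ω') (i) :
    |vF D π q J w ω₀ X a ω i - vF D π q J w ω₀ X a ω' i| ≤ ((2 * ⌈A₀ K⌉₊ + 2 : ℕ) : ℤ) := by
  rcases i with (r | ⟨s, r⟩) | r
  · exact fl_two (hz_dig hO hw ω₀ hω ha (hP.co_lt r).le) (hz_dig hO hw ω₀ hω' ha' (hP.co_lt r).le)
      (hA_eq e1 (hP.co_ge r) (hP.co_lt r) (by rw [rk_co hP.inj]; exact r.2))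
  · change |hd D π q J w ω₀ X s (D.wn J w ω) (π.co r) -
      hd D π q J w ω₀ X s (D.wn J w ω') (π.co r)| ≤ _
    unfold hd
    by_cases h1 : π.rk (π.co r) < s
    · rw [if_pos h1, if_pos h1]
      exact fl_two (hz_dig hO hw ω₀ hω (hp s) (hP.co_lt r).le)
        (hz_dig hO hw ω₀ hω' (hp' s) (hP.co_lt r).le)
        (hv_eq (e2 s) (hP.co_ge r) (hP.co_lt r))
    · rw [if_neg h1, if_neg h1, sub_self, abs_zero]
      exact Int.natCast_nonneg _
  · have e3 : ∀ x, ⌊(2 : ℝ) ^ X * (2 ^ gl D π.o (π.co r) * hz D q J w ω₀ (π.p r) x (π.co r) /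
        2 ^ gl D (π.p r) (π.co r))⌋ = ⌊(2 : ℝ) ^ gl D π.o (π.co r) /
        2 ^ gl D (π.p r) (π.co r) * (2 ^ X * hz D q J w ω₀ (π.p r) x (π.co r))⌋ := by
      intro x
      congr 1
      ring
    change |⌊(2 : ℝ) ^ X * (2 ^ gl D π.o (π.co r) *
      hz D q J w ω₀ (π.p r) (D.wn J w ω) (π.co r) / 2 ^ gl D (π.p r) (π.co r))⌋ -
      ⌊(2 : ℝ) ^ X * (2 ^ gl D π.o (π.co r) *
      hz D q J w ω₀ (π.p r) (D.wn J w ω') (π.co r) / 2 ^ gl D (π.p r) (π.co r))⌋| ≤ _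
    rw [e3, e3]
    refine fl_scale (hz_dig hO hw ω₀ hω (hp r) (hP.co_lt r).le)
      (hz_dig hO hw ω₀ hω' (hp' r) (hP.co_lt r).le)
      (hv_eq (e2 r) (hP.co_ge r) (hP.co_lt r)) (by positivity) ?_
    rw [div_le_one (by positivity)]
    exact pow_le_pow_right₀ (by norm_num) (by have := (hP.self r).1; omega)

end

/-- **The context of the own leaf says little on the data of the line**, on an event of the
line. -/
theorem h2_ctx (n K : ℕ) (lam gam : ℕ → ℝ) (C₁ : ℝ) (hC₁ : 1 ≤ C₁) (c : ℕ) : ∃ C : ℝ, 1 ≤ C ∧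
    ∀ (M : ℕ) (η : ℝ), 2 ≤ M → 0 < η → ∃ (κ₀ : ℝ) (z₀ : ℕ), 0 < κ₀ ∧
    ∀ (J a₀ w₀ z X k w : ℕ) (κ κ' : ℝ) (D : NDat2) (q : D.Ω → ℝ) (π : Pls k) (a : ℕ × ℕ)
      (an be s S' : ℕ) (ω₀ : D.Ω), z₀ ≤ z → z ≤ X → κ ≤ κ₀ → κ' ≤ 1 → w = w₀ + π.o.2 * z →
      D.Ok2 n K J a₀ w₀ z M lam gam κ C₁ q → D.DMA z M κ' q →
      Plc D n z X c M π → Pln D n z X c M π a → Plg D n z X c M π a an be s S' →
      1 / 2 ≤ Pb q (Gln D n w₀ J z π a) →
      CH (cond q (Gln D n w₀ J z π a) True) (D.c (π.o.1 - S' * an) (π.o.2 + S' * be))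
          (fun ω => (D.c π.o.1 π.o.2 ω, D.T ω)) ≤
        CH (cond q (Gln D n w₀ J z π a) True) (D.c (π.o.1 - S' * an) (π.o.2 + S' * be))
          (fun ω => (Vd D π q J w ω₀ X a (D.wn J w ω), (D.c π.o.1 π.o.2 ω, D.T ω))) +
          (C * z + η * X) := by
  classical
  obtain ⟨C₂, hC₂, hfull⟩ := pl_full n K lam gam C₁ hC₁ c
  obtain ⟨C₃, hC₃, hfew⟩ := plk_few n K lam gam C₁ hC₁ c
  obtain ⟨R, hR⟩ : ∃ R : ℕ, R = 2 * ⌈A₀ K⌉₊ + 2 := ⟨_, rfl⟩
  have hn0 : (0 : ℝ) ≤ n := Nat.cast_nonneg n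
  have hlR : 0 ≤ Real.log (2 * R + 1) := Real.log_nonneg (by
    have : (0 : ℝ) ≤ R := Nat.cast_nonneg _
    linarith)
  obtain ⟨L, hL⟩ : ∃ L : ℝ, L = Real.log (2 * R + 1) := ⟨_, rfl⟩
  rw [← hL] at hlR
  refine ⟨2 * C₂ + 2 * n * C₃ + 10 * n + 10 + (n ^ 2 + 3 * n) * L, by
    have : 0 ≤ 2 * n * C₃ := by positivity
    have : 0 ≤ ((n : ℝ) ^ 2 + 3 * n) * L := by positivity
    linarith, fun M η hM hη => ?_⟩
  obtain ⟨η₁, hη₁⟩ : ∃ η₁ : ℝ, η₁ = η / (2 * n + 2) := ⟨_, rfl⟩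
  have hη1 : 0 < η₁ := by
    rw [hη₁]
    positivity
  obtain ⟨κa, za, hκa, hfull⟩ := hfull M η₁ hM hη1
  obtain ⟨κb, zb, hκb, hfew⟩ := hfew M η₁ hM hη1
  refine ⟨min κa κb, za + zb + 1, lt_min hκa hκb, ?_⟩
  intro J a₀ w₀ z X k w κ κ' D q π a an be s S' ω₀ hz hzX hκ hκ' hw hO hD hP hPl hG hEv
  have hz1 : 1 ≤ z := by omega
  have hzr : (1 : ℝ) ≤ z := by exact_mod_cast hz1
  have hq := hO.isLaw
  have hq0 := hq.nonneg
  have hwz : w + z ≤ J := by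
    have e1 := hO.top
    have e2 := hO.thin
    have e3 : π.o.2 * z ≤ M * z := Nat.mul_le_mul_right z hP.o_lt.2.le
    have e4 : (M + 1) * z = M * z + z := by ring
    rw [hw]
    omega
  have hwJ : w ≤ J := by omega
  -- places
  have ha1 : a.1 = π.o.1 + an := by rw [hG.a_eq]
  have ha2 : a.2 = π.o.2 - be := by rw [hG.a_eq]
  have hbe := hG.be_le
  have hao : a.1 - 1 * an = π.o.1 := by omega
  have hao2 : a.2 + 1 * be = π.o.2 := by omega
  have hol := hP.o_lt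
  have haM : a.1 < M ∧ a.2 < M := ⟨hPl.a_lt, by omega⟩
  have hpM : ∀ r, (π.p r).1 < M ∧ (π.p r).2 < M := fun r => ⟨hP.p_lt r, by
    rw [(hG.hor r).1]
    exact haM.2⟩
  have hWo : w₀ + π.o.2 * z ≤ w := hw.ge
  have hWa : w₀ + a.2 * z + X + z ≤ w := by
    have := hPl.win
    rw [hw]
    omega
  have hWp : ∀ r, w₀ + (π.p r).2 * z + X + z ≤ w := fun r => by
    have := hP.win r
    rw [hw]
    omega
  have do' := det_c hO hol.1.le hol.2.le hWo hwJ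
  have da := det_c hO haM.1.le haM.2.le (by omega : w₀ + a.2 * z ≤ w) hwJ
  have dp : ∀ r, Det q (D.wn J w) (D.c (π.p r).1 (π.p r).2) := fun r =>
    det_c hO (hpM r).1.le (hpM r).2.le (by have := hWp r; omega) hwJ
  have dap : ∀ r, Det q (D.c a.1 a.2) (D.c (π.p r).1 (π.p r).2) := fun r =>
    Pool.ADJ.c_det hO (hG.hor r).1.le (by
      have := (hG.hor r).2
      have := (hG.hor r).1
      omega) haM.1.le haM.2.le
  -- names
  obtain ⟨Go, hGo⟩ : ∃ Go, Go = Gln D n w₀ J z π a := ⟨_, rfl⟩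
  rw [← hGo] at hEv ⊢
  have hE0 : 0 < Pb q Go := by linarith
  obtain ⟨p, hp⟩ : ∃ p, p = cond q Go True := ⟨_, rfl⟩
  have hpl : IsLaw p := by rw [hp]; exact Pool.MIC.isLaw_ev hq Go hE0
  have hpos : ∀ ω, 0 < p ω → 0 < q ω ∧ Go ω := fun ω hω => by
    rw [hp] at hω
    exact Pool.MIC.ev_pos hq0 Go hω
  obtain ⟨A, hAA⟩ : ∃ A, A = D.c (π.o.1 - S' * an) (π.o.2 + S' * be) := ⟨_, rfl⟩
  obtain ⟨W, hWW⟩ : ∃ W : D.Ω → D.Γ × ℕ, W = fun ω => (D.c π.o.1 π.o.2 ω, D.T ω) := ⟨_, rfl⟩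
  obtain ⟨V, hV⟩ : ∃ V, V = fun ω => Vd D π q J w ω₀ X a (D.wn J w ω) := ⟨_, rfl⟩
  obtain ⟨Ca, hCa⟩ : ∃ Ca, Ca = D.c a.1 a.2 := ⟨_, rfl⟩
  obtain ⟨H, hH⟩ : ∃ H, H = hA D n X π a := ⟨_, rfl⟩
  obtain ⟨hm, hhm⟩ : ∃ hm : D.Ω → ℕ → ℤ, hm = fun ω => hn D π q J w ω₀ X a (D.wn J w ω) :=
    ⟨_, rfl⟩
  obtain ⟨Hs, hHs⟩ : ∃ Hs : D.Ω → Fin k → Fin (n - 1) → ℤ, Hs = fun ω r =>
    hvS D (n - 1) (π.p r).1 (π.p r).2 X (D.Φ (π.p r).1 (π.p r).2) ω := ⟨_, rfl⟩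
  rw [← hAA, ← hp]
  -- the sides
  have sL : ∀ b : ℕ × ℕ, b.1 < M → b.2 < M → ∀ ω, 0 < q ω → Sd D n K b.1 b.2 (D.Φ b.1 b.2) ω :=
    fun b h1 h2 ω hω => sd_line hO h1.le h2.le hω
  -- (1)
  have k1 : CH q Ca W ≤ CH q Ca (fun ω => (A ω, W ω)) + z := by
    have h1 := (hD.use hq0 (i := π.o.1) (j := π.o.2) (a := an) (b := be) (s := 1) (s' := S')
      (by omega) (by omega) hG.o1 hG.o2.le (X := Ca) (Y := A) (e₁ := 0) (e₂ := 0)
      (by
        refine (CH_eq_zero hq0 ?_).le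
        intro ω ω' _ _ e
        have e1 := congrFun (Prod.ext_iff.1 e).1 ⟨1, by omega⟩
        unfold NDat2.lft at e1
        rw [hCa, ha1, ha2]
        simpa using e1)
      (by
        refine (CH_eq_zero hq0 ?_).le
        intro ω ω' _ _ e
        have e1 := congrFun (Prod.ext_iff.1 e).1 ⟨S', by omega⟩
        unfold NDat2.rgt at e1
        rw [hAA]
        exact e1)).1
    rw [hWW]
    have h2 : κ' * z ≤ z := by nlinarith
    linarith
  -- (2)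
  obtain ⟨m, hmm⟩ : ∃ m : ℕ, m = (nrk n π)ᶜ.card := ⟨_, rfl⟩
  have hmn : (m : ℝ) ≤ n := by
    have := Finset.card_le_univ (nrk n π)ᶜ
    rw [Fintype.card_fin, ← hmm] at this
    exact_mod_cast this.trans (Nat.sub_le _ _)
  have hl2 : Real.log 2 ≤ 1 := by linarith [Real.log_two_lt_d9]
  have hl20 : 0 ≤ Real.log 2 := Real.log_nonneg (by norm_num)
  obtain ⟨U, hU⟩ : ∃ U : ℕ, U = X / z := ⟨_, rfl⟩
  have hUX : U * z ≤ X := by
    rw [hU]
    exact Nat.div_mul_le_self _ _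
  have hXU : X ≤ U * z + z := by
    rw [hU]
    have := Nat.lt_div_mul_add (a := X) (b := z) hz1
    omega
  have k2 : CH q H (fun ω => (Ca ω, W ω)) ≤ CH q H (fun ω => (A ω, (Ca ω, W ω))) +
      (4 * n * z + (C₂ * z + η₁ * X)) := by
    have u1 := in_le hq (X := X + 1) (nrk n π)ᶜ (hvS D (n - 1) a.1 a.2 X (D.Φ a.1 a.2))
      (fun ω => (Ca ω, W ω)) (fun ω hω l => hv_le (Nat.sub_le _ _) (sL a haM.1 haM.2 ω hω) l)
    rw [compl_compl, ← hmm] at u1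
    have u1' : CH q H (fun ω => (Ca ω, W ω)) ≤
        (m : ℝ) * (((X + 1 : ℕ) : ℝ) * Real.log 2 + 2 * Real.log 2) := by
      rw [hH]
      exact u1
    have u2 := (hfull J a₀ w₀ z κ κ' D q (by omega) (hκ.trans (min_le_left _ _)) hκ' hO hD
      a.1 a.2 an be s 1 (S' + 1) U (D.Φ a.1 a.2) (nrk n π) hG.r1 hG.r2 haM.2
      (by rw [Nat.add_mul]; have := hG.o1; omega)
      (by rw [Nat.add_mul]; have := hG.o2; omega) (by omega) (by rw [hU]; exact hG.rU)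
      (sL a haM.1 haM.2) (det_line fun ω ω' _ _ e => (Prod.ext_iff.1 e).1)
      (fun l hl => by
        have := hG.nar (l + 1) (by omega) (by omega) (by
          rw [mem_nrk, not_not] at hl
          exact hl)
        omega)
      (fun l hl => by
        have := hG.wid (l + 1) (by omega) (by omega) (mem_nrk.1 hl)
        rw [hao, hao2]
        omega)).1
    have u3 : CH q (off (nrk n π) (hvS D (n - 1) a.1 a.2 (U * z) (D.Φ a.1 a.2)))
        (fun ω => (D.rgt a.1 a.2 an be (S' + 1) ω, (D.c a.1 a.2 ω, D.T ω))) ≤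
        CH q H (fun ω => (D.rgt a.1 a.2 an be (S' + 1) ω, (D.c a.1 a.2 ω, D.T ω))) := by
      refine CH_mono_left hq0 fun ω ω' _ _ e => ?_
      have e1 : H ω = H ω' := (Prod.ext_iff.1 e).1
      rw [hH] at e1
      funext l
      unfold off
      by_cases hl : l ∈ nrk n π
      · rw [if_pos hl, if_pos hl]
      · rw [if_neg hl, if_neg hl]
        have e2 := hA_eq e1 (l := l + 1) (by omega) (by omega) (by
          rw [mem_nrk, not_not] at hl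
          exact hl)
        unfold hvS hdS
        rw [fl_coarse hUX, e2, ← fl_coarse hUX]
    have u4 : CH q H (fun ω => (D.rgt a.1 a.2 an be (S' + 1) ω, (D.c a.1 a.2 ω, D.T ω))) ≤
        CH q H (fun ω => (A ω, (Ca ω, W ω))) := by
      refine CH_mono_cond hq0 fun ω ω' _ _ e => ?_
      have e1 := (Prod.ext_iff.1 e).1
      have e2 : D.c a.1 a.2 ω = D.c a.1 a.2 ω' := (Prod.ext_iff.1 (Prod.ext_iff.1 e).2).1
      have e3 : D.T ω = D.T ω' := (Prod.ext_iff.1 (Prod.ext_iff.1 e).2).2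
      have e4 := congrFun e1 ⟨1, by omega⟩
      have e5 := congrFun e1 ⟨S' + 1, by omega⟩
      unfold NDat2.rgt at e4 e5
      dsimp only at e4 e5
      rw [hao, hao2] at e4
      have g1 : a.1 - (S' + 1) * an = π.o.1 - S' * an := by
        rw [Nat.add_mul]
        omega
      have g2 : a.2 + (S' + 1) * be = π.o.2 + S' * be := by
        rw [Nat.add_mul]
        omega
      rw [g1, g2] at e5
      rw [hAA, hCa, hWW]
      dsimp only
      rw [e5, e2, e4, e3]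
    have hcard : ((n - 1 : ℕ) : ℝ) - (nrk n π).card = m := by
      have h1 := Finset.card_compl (nrk n π)
      rw [Fintype.card_fin] at h1
      have h2 : (nrk n π).card ≤ n - 1 := by
        have := Finset.card_le_univ (nrk n π)
        rwa [Fintype.card_fin] at this
      rw [hmm, h1, Nat.cast_sub h2]
    rw [hcard] at u2
    have hXr : (X : ℝ) ≤ U * z + z := by exact_mod_cast hXU
    have hUr : ((U : ℝ) * z) ≤ X := by exact_mod_cast hUX
    have m0 : (0 : ℝ) ≤ m := Nat.cast_nonneg _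
    have v1 : (m : ℝ) * (((X + 1 : ℕ) : ℝ) * Real.log 2 + 2 * Real.log 2) ≤
        m * (U * z) * Real.log 2 + 4 * n * z := by
      push_cast
      have v2 : ((X : ℝ) + 1) * Real.log 2 + 2 * Real.log 2 ≤ (U * z) * Real.log 2 + 4 * z := by
        have v3 : (X : ℝ) * Real.log 2 ≤ (U * z + z) * Real.log 2 :=
          mul_le_mul_of_nonneg_right hXr hl20
        nlinarith
      have v4 := mul_le_mul_of_nonneg_left v2 m0
      have v5 : (m : ℝ) * (4 * z) ≤ n * (4 * z) :=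
        mul_le_mul_of_nonneg_right hmn (by positivity)
      linarith
    have v6 : η₁ * ((U : ℝ) * z) ≤ η₁ * X := mul_le_mul_of_nonneg_left hUr hη1.le
    linarith
  -- (3)
  have k3 : CH p V (fun ω => (H ω, (Ca ω, W ω))) ≤
      2 * (n * (C₃ * z + η₁ * X)) + (n ^ 2 + 2 * n) * L := by
    have t1 := CH_le_add hpl.nonneg V Hs (fun ω => (H ω, (Ca ω, W ω)))
    have t2 : CH p Hs (fun ω => (H ω, (Ca ω, W ω))) ≤ 2 * (n * (C₃ * z + η₁ * X)) := by
      rw [hp]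
      refine few_cnd hq Hs _ ?_ Go hEv
      have t3 : CH q Hs (fun ω => (H ω, (Ca ω, W ω))) ≤
          ∑ r : Fin k, CH q (fun ω => Hs ω r) (fun ω => (H ω, (Ca ω, W ω))) :=
        CH_fam hq0 (fun ω => (H ω, (Ca ω, W ω))) k (fun r ω => Hs ω r)
      have t4 : ∀ r : Fin k, CH q (fun ω => Hs ω r) (fun ω => (H ω, (Ca ω, W ω))) ≤
          C₃ * z + η₁ * X := by
        intro r
        rw [hHs]
        have da' : Det q (fun ω => (H ω, (Ca ω, W ω))) (D.c a.1 a.2) := fun ω ω' _ _ e => by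
          have := (Prod.ext_iff.1 (Prod.ext_iff.1 e).2).1
          rwa [hCa] at this
        have dW : Det q (fun ω => (H ω, (Ca ω, W ω))) W := fun ω ω' _ _ e =>
          (Prod.ext_iff.1 (Prod.ext_iff.1 e).2).2
        have do'' : Det q (fun ω => (H ω, (Ca ω, W ω))) (D.c π.o.1 π.o.2) := fun ω ω' h h' e => by
          have := dW ω ω' h h' e
          rw [hWW] at this
          exact (Prod.ext_iff.1 this).1
        have dT : Det q (fun ω => (H ω, (Ca ω, W ω))) D.T := fun ω ω' h h' e => by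
          have := dW ω ω' h h' e
          rw [hWW] at this
          exact (Prod.ext_iff.1 this).2
        refine hfew J a₀ w₀ z κ D q (by omega) (hκ.trans (min_le_right _ _)) hO a.1 a.2
          π.o.1 π.o.2 (π.p r).1 (π.p r).2 (n - 1) X (D.Φ a.1 a.2) (D.Φ π.o.1 π.o.2)
          (D.Φ (π.p r).1 (π.p r).2) _ _ haM.1 haM.2 hol.1 hol.2 (hpM r).1 (hpM r).2
          (Nat.sub_le _ _) (sL a haM.1 haM.2) (sL π.o hol.1 hol.2) (sL (π.p r) (hpM r).1 (hpM r).2)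
          (det_line da') (det_line do'')
          (det_line fun ω ω' h h' e => dap r ω ω' h h' (da' ω ω' h h' e)) dT
          (fun l hl => ?_) (fun l hl => hG.lev r (l + 1) (by omega) (by omega))
        by_cases h1 : π.rk (l + 1) < k
        · right
          intro ω ω' _ _ e
          have e1 : H ω = H ω' := (Prod.ext_iff.1 e).1
          rw [hH] at e1
          exact hA_eq e1 (by omega) (by omega) h1
        · left
          exact hG.wid (l + 1) (by omega) (by omega) h1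
      have t5 := Finset.sum_le_sum fun r (_ : r ∈ (univ : Finset (Fin k))) => t4 r
      rw [Finset.sum_const, card_univ, Fintype.card_fin, nsmul_eq_mul] at t5
      have t6 : (k : ℝ) ≤ n := by exact_mod_cast rank_le hP
      have t7 : (k : ℝ) * (C₃ * z + η₁ * X) ≤ n * (C₃ * z + η₁ * X) :=
        mul_le_mul_of_nonneg_right t6 (by positivity)
      linarith
    have t8 : CH p V (fun ω => (Hs ω, (H ω, (Ca ω, W ω)))) ≤
        CH p (vF D π q J w ω₀ X a) (fun ω => (Hs ω, (H ω, (Ca ω, W ω)))) := by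
      refine CH_mono_left hpl.nonneg fun ω ω' hω hω' e => ?_
      have e1 := (Prod.ext_iff.1 e).1
      have e2 := (Prod.ext_iff.1 (Prod.ext_iff.1 (Prod.ext_iff.1 e).2).2).2
      have e3 : Ca ω = Ca ω' := (Prod.ext_iff.1 e2).1
      have e4 : W ω = W ω' := (Prod.ext_iff.1 e2).2
      rw [hCa] at e3
      rw [hWW] at e4
      rw [hV]
      exact vd_det do' da dp (hpos ω hω).1 (hpos ω' hω').1 (Prod.ext_iff.1 e4).1
        (Prod.ext_iff.1 e4).2 e3 (fun r => dap r ω ω' (hpos ω hω).1 (hpos ω' hω').1 e3) e1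
    have t9 : CH p (vF D π q J w ω₀ X a) (fun ω => (Hs ω, (H ω, (Ca ω, W ω)))) ≤
        Fintype.card ((Fin k ⊕ (Fin k × Fin k)) ⊕ Fin k) * Real.log (2 * R + 1) := by
      refine few_int hpl _ _ R fun ω ω' hω hω' e i => ?_
      obtain ⟨q1, g1⟩ := hpos ω hω
      obtain ⟨q2, g2⟩ := hpos ω' hω'
      rw [hGo] at g1 g2
      have e1 : Hs ω = Hs ω' := (Prod.ext_iff.1 e).1
      have e2 : H ω = H ω' := (Prod.ext_iff.1 (Prod.ext_iff.1 e).2).1
      rw [hH] at e2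
      rw [hHs] at e1
      rw [hR]
      exact vF_near hO hP hwJ ω₀ q1 q2 ⟨haM, hWa, g1.1⟩ ⟨haM, hWa, g2.1⟩
        (fun r => ⟨hpM r, hWp r, g1.2 r⟩) (fun r => ⟨hpM r, hWp r, g2.2 r⟩) e2
        (fun r => congrFun e1 r) i
    have t10 : (Fintype.card ((Fin k ⊕ (Fin k × Fin k)) ⊕ Fin k) : ℝ) ≤ n ^ 2 + 2 * n := by
      have t6 : (k : ℝ) ≤ n := by exact_mod_cast rank_le hP
      rw [Fintype.card_sum, Fintype.card_sum, Fintype.card_prod, Fintype.card_fin]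
      push_cast
      have : (0 : ℝ) ≤ k := Nat.cast_nonneg _
      nlinarith
    have t11 := mul_le_mul_of_nonneg_right t10 hlR
    rw [← hL] at t9
    linarith
  -- (4)
  have k4 : CH p H (fun ω => (hm ω, (Ca ω, W ω))) ≤ n * L := by
    have t1 : CH p H (fun ω => (hm ω, (Ca ω, W ω))) ≤
        Fintype.card (Fin (n - 1)) * Real.log (2 * R + 1) := by
      refine few_int hpl _ _ R fun ω ω' hω hω' e l => ?_
      obtain ⟨q1, g1⟩ := hpos ω hω
      obtain ⟨q2, g2⟩ := hpos ω' hω'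
      rw [hGo] at g1 g2
      have e1 : hm ω = hm ω' := (Prod.ext_iff.1 e).1
      rw [hH, hR]
      unfold hA off
      by_cases hl : l ∈ nrk n π
      · rw [if_pos hl, if_pos hl, sub_self, abs_zero]
        exact Int.natCast_nonneg _
      · rw [if_neg hl, if_neg hl]
        rw [mem_nrk, not_not] at hl
        rw [hhm] at e1
        have e2 := congrFun e1 (l + 1)
        unfold hn at e2
        dsimp only at e2
        rw [if_pos hl, if_pos hl] at e2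
        have a1 := hz_dig hO hwJ ω₀ q1 (⟨haM, hWa, g1.1⟩ : Wn D n w₀ w J z X M a ω)
          (l := l + 1) (by omega)
        have a2 := hz_dig hO hwJ ω₀ q2 (⟨haM, hWa, g2.1⟩ : Wn D n w₀ w J z X M a ω')
          (l := l + 1) (by omega)
        rw [abs_sub_comm] at a1 a2
        exact fl_two a1 a2 e2
    rw [Fintype.card_fin, ← hL] at t1
    have t2 : ((n - 1 : ℕ) : ℝ) ≤ n := by exact_mod_cast Nat.sub_le n 1
    have t3 := mul_le_mul_of_nonneg_right t2 hlR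
    linarith
  -- the sum
  have hVd : Det p V (fun ω => (hm ω, Ca ω)) := by
    intro ω ω' hω hω' e
    rw [hV] at e
    have e1 := (Prod.ext_iff.1 (Prod.ext_iff.1 (Prod.ext_iff.1 (Prod.ext_iff.1 e).1).2).2)
    have e2 : hn D π q J w ω₀ X a (D.wn J w ω) = hn D π q J w ω₀ X a (D.wn J w ω') := e1.2
    have e3 : cl D q J w ω₀ a (D.wn J w ω) = cl D q J w ω₀ a (D.wn J w ω') := e1.1
    rw [cl_eq ω₀ da (hpos ω hω).1, cl_eq ω₀ da (hpos ω' hω').1] at e3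
    rw [hhm, hCa]
    exact Prod.ext e2 e3
  have l1 := mi_cnd hq Ca A W k1 (by linarith) Go hEv
  have l2 := mi_cnd hq H A (fun ω => (Ca ω, W ω)) k2 (by positivity) Go hEv
  rw [← hp] at l1 l2
  have fin := mi_thr hpl.nonneg A V Ca H hm W hVd l1 l2 k3 k4
  rw [hV, hWW] at fin
  refine fin.trans ?_
  have e1 : η₁ * (2 * n + 2) = η := by
    rw [hη₁]
    field_simp
  have e2 : η * X = η₁ * X * (2 * n + 2) := by
    rw [← e1]
    ring
  have hL2 : ((n : ℝ) ^ 2 + 3 * n) * L ≤ (n ^ 2 + 3 * n) * L * z :=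
    le_mul_of_one_le_right (by positivity) hzr
  have hηX : 0 ≤ η₁ * X := by positivity
  rw [e2]
  nlinarith

end Pool.LSH
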