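import Pool.Agent.H50.LSH.MiE
import Pool.Agent.H7.MIC.Inf
import Pool.Agent.H19.VAS.SubT

/-!
# The own height and the data of the line, on a sub-law

`mi_sub`: from the information of the own context `A` and the data `V` of the line, on an event of
large probability, to the information of the own height `N` and `V`, on a sub-law.
-/

set_option autoImplicit false

namespace Pool.LSH

open Finset
open Pool.Agent.H49.Ent Pool.Agent.H32.Dense Pool.STK Pool.STAT Pool.MIC
open Pool.BFL (Pb)
open Pool.TIE (SubL)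

variable {Ω Ω' : Type} [Fintype Ω] [Fintype Ω'] {p : Ω → ℝ} {c : ℝ} {q : Ω' → ℝ} {f : Ω' → Ω}

theorem cnd_eq (p : Ω → ℝ) (E : Ω → Prop) {ω : Ω} (h : E ω) :
    cond p E True ω = p ω / Pb p E := by
  classical
  unfold Pool.Agent.H49.Ent.cond
  rw [Pool.MIC.law_True, if_pos (by simpa using h)]

/-- A sub-law on an event. -/
theorem sub_cnd (hp : IsLaw p) (hc : 0 < c) (h : SubL p c q f) (E : Ω → Prop)
    (hE : 1 / 2 ≤ Pb q (fun w => E (f w))) (hE' : 0 < Pb p E) :
    SubL (cond p E True) (c / 2) (cond q (fun w => E (f w)) True) f := by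
  classical
  have hq := h.isLaw
  have hE0 : 0 < Pb q (fun w => E (f w)) := by linarith
  refine ⟨Pool.MIC.isLaw_ev hq _ hE0, fun ω => ?_⟩
  have hE1 : Pb p E ≤ 1 := by
    have := Pool.MIC.Pb_not hp.sum_one E
    have := Pool.MIC.Pb_nonneg hp.nonneg (fun ω => ¬ E ω)
    linarith
  have h0 : 0 ≤ law q f ω := law_nonneg hq.nonneg f ω
  by_cases hω : E ω
  · have h1 : law (cond q (fun w => E (f w)) True) f ω ≤ 2 * law q f ω := by
      unfold law
      rw [Finset.mul_sum]
      refine Finset.sum_le_sum fun w _ => ?_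
      by_cases hw : f w = ω
      · rw [if_pos hw, if_pos hw]
        have h2 : cond q (fun w => E (f w)) True w = q w / Pb q (fun w => E (f w)) :=
          cnd_eq q _ (by rw [hw]; exact hω)
        rw [h2, div_le_iff₀ hE0]
        have := hq.nonneg w
        nlinarith
      · rw [if_neg hw, if_neg hw, mul_zero]
    have h3 : cond p E True ω = p ω / Pb p E := cnd_eq p E hω
    have h4 : p ω ≤ cond p E True ω := by
      rw [h3, le_div_iff₀ hE']
      have := hp.nonneg ω
      nlinarith
    have h5 := h.dens ω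
    nlinarith
  · have h1 : law (cond q (fun w => E (f w)) True) f ω = 0 := by
      unfold law
      refine Finset.sum_eq_zero fun w _ => ?_
      by_cases hw : f w = ω
      · rw [if_pos hw]
        by_contra hne
        have h2 : 0 < cond q (fun w => E (f w)) True w :=
          lt_of_le_of_ne ((Pool.MIC.isLaw_ev hq _ hE0).nonneg w) (Ne.symm hne)
        have h3 := (Pool.MIC.ev_pos hq.nonneg (fun w => E (f w)) h2).2
        rw [hw] at h3
        exact hω h3
      · rw [if_neg hw]
    rw [h1, mul_zero]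
    exact (Pool.MIC.isLaw_ev hp E hE').nonneg ω

/-- **From the own context to the own height.** -/
theorem mi_sub {A' V' W' S K' : Type} (hp : IsLaw p) (hc : 0 < c) (h : SubL p c q f)
    (E : Ω → Prop) (A : Ω → A') (V : Ω → V') (W : Ω → W') {m e r : ℝ} (hm0 : 0 ≤ m)
    (hE : Pb p (fun ω => ¬ E ω) ≤ e) (he : 2 * e ≤ c)
    (hm : CH (cond p E True) A W ≤ CH (cond p E True) A (fun ω => (V ω, W ω)) + m)
    (N : Ω' → S) (K : Ω' → K') (F : Finset S) (hF : ∀ w, 0 < q w → N w ∈ F)
    (hr : CH q (fun w => (N w, K w)) (fun w => (A (f w), W (f w))) ≤ r) :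
    CH q N (fun w => (K w, W (f w))) ≤ CH q N (fun w => (V (f w), (K w, W (f w)))) +
      (2 / c * (m + Real.log 2) + 2 * r + e / c * Real.log F.card + Real.log 2) := by
  classical
  have hq := h.isLaw
  have hc1 := Pool.VAS.sub_c1 hp hc h
  have b1 : Pb q (fun w => ¬ E (f w)) ≤ e / c :=
    (Pool.VAS.sub_bad hp hc h (fun ω => ¬ E ω)).trans (div_le_div_of_nonneg_right hE hc.le)
  have b2 : e / c ≤ 1 / 2 := by
    rw [div_le_iff₀ hc]
    linarith
  have b3 := Pool.MIC.Pb_not hq.sum_one (fun w => E (f w))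
  have hE2 : 1 / 2 ≤ Pb q (fun w => E (f w)) := by linarith
  have b4 := Pool.MIC.Pb_not hp.sum_one E
  have hE' : 0 < Pb p E := by linarith
  have hpE := Pool.MIC.isLaw_ev hp E hE'
  have hr0 : 0 ≤ r := (CH_nonneg hq.nonneg _ _).trans hr
  have s1 := sub_cnd hp hc h E hE2 hE'
  have s2 := Pool.VAS.sub_mi hpE (by positivity) s1 A W (fun ω => (V ω, W ω))
    (fun ω ω' _ _ e => (Prod.ext_iff.1 e).2) hm
  have s3 := few_cnd hq _ _ hr (fun w => E (f w)) hE2
  have hqE : IsLaw (cond q (fun w => E (f w)) True) := s1.isLaw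
  have s4 := mi_own hqE.nonneg (fun w => A (f w)) (fun w => V (f w)) N K (fun w => W (f w)) s2 s3
  have l2 : 0 ≤ Real.log 2 := Real.log_nonneg (by norm_num)
  have s5 := Pool.MIC7.info_back hq (fun w => E (f w)) N (fun w => V (f w))
    (fun w => (K w, W (f w))) F hF (by positivity) s4
  have hne : 0 ≤ Real.log F.card := by
    rcases Nat.eq_zero_or_pos F.card with h0 | h0
    · rw [h0]
      simp
    · exact Real.log_nonneg (by exact_mod_cast h0)
  have s6 := mul_le_mul_of_nonneg_right b1 hne
  have e1 : (m + Real.log 2) / (c / 2) = 2 / c * (m + Real.log 2) := by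
    field_simp
  rw [e1] at s5
  linarith

end Pool.LSH
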