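import Pool.Agent.H50.LSH.H2g
import Pool.Agent.H50.LSH.H2s
import Pool.Agent.H12.LSH.Own
import Pool.Agent.H46.MicA.Loc

/-!
# (H2): the own height says little on the data of the line

`h2_sub`: for any sub-law of density at least `c₁`. `h2_sh`: for the sheets of a cell.
-/

set_option autoImplicit false

namespace Pool.LSH

open Finset MvPolynomial
open Pool.Agent.H49.Ent Pool.Agent.H32.Dense Pool.STK Pool.STAT Pool.MIC Pool.MicA Pool.PTH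
open Pool.BFL (Pl Pb)
open Pool.GSD
open Pool.TIE (SubL)

/-- The range of the own height. -/
theorem ht_rng (n K₀ : ℕ) : ∃ A : ℝ, 1 ≤ A ∧ ∀ (K J a₀ w₀ z M : ℕ) (lam gam : ℕ → ℝ) (κ C₁ : ℝ)
    (D : NDat2) (q : D.Ω → ℝ), D.Ok2 n K J a₀ w₀ z M lam gam κ C₁ q →
    ∀ (i j i' j' X bb : ℕ) (ω : D.Ω), i ≤ M → j ≤ M → 0 < q ω →
    |(htA D n K₀ z i j i' j' X bb ω : ℝ)| ≤ A * (2 ^ X * 2 ^ bb) := by
  obtain ⟨A, hA, h⟩ := ht_own n K₀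
  obtain ⟨B, hB⟩ : ∃ B : ℝ, B = (Pool.Agent.H36.KBX.bx (n - 1) K₀).card *
    (((n - 1 : ℕ) : ℝ) * K₀) + 1 := ⟨_, rfl⟩
  have hB1 : 1 ≤ B := by
    rw [hB]
    have : (0 : ℝ) ≤ (Pool.Agent.H36.KBX.bx (n - 1) K₀).card * (((n - 1 : ℕ) : ℝ) * K₀) := by
      positivity
    linarith
  refine ⟨3 + A + B, by linarith, ?_⟩
  intro K J a₀ w₀ z M lam gam κ C₁ D q hO i j i' j' X bb ω hi hj hω
  have h1 := h K J a₀ w₀ z M lam gam κ C₁ D q hO i j i' j' X bb ω hi hj hω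
  have h2 := zt_le hO hi hj hω (l := n) le_rfl
  obtain ⟨R, hR⟩ : ∃ R, R = kpA D n K₀ z i j i' j' X bb ω := ⟨_, rfl⟩
  obtain ⟨y, hy⟩ : ∃ y : Fin (n - 1) → ℝ,
    y = fun l : Fin (n - 1) => up z (zt D i j ω ((l : ℕ) + 1)) := ⟨_, rfl⟩
  have hRc : ∀ α, |coeff α R| ≤ 2 ^ bb := fun α => by
    rw [hR]
    exact kpA_cf _ _ _ _ _ _ _ _ _ _ _ _
  have h3 : |eval y R - eval (0 : Fin (n - 1) → ℝ) R| ≤
      (Pool.Agent.H36.KBX.bx (n - 1) K₀).card * (((n - 1 : ℕ) : ℝ) * K₀ * (2 ^ bb * 1)) := by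
    refine pl_lip R (by rw [hR]; exact kpA_deg _ _ _ _ _ _ _ _ _ _ _) (by positivity)
      (fun α _ => hRc α) zero_le_one ?_ ?_ ?_
    · intro l
      rw [hy]
      have := up_mem (z := z) (zt_le hO hi hj hω (l := (l : ℕ) + 1) (by have := l.2; omega))
      rw [abs_le]
      constructor <;> linarith
    · intro l
      simp
    · intro l
      rw [hy]
      have := up_mem (z := z) (zt_le hO hi hj hω (l := (l : ℕ) + 1) (by have := l.2; omega))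
      simp only [Pi.zero_apply, sub_zero]
      rw [abs_le]
      constructor <;> linarith
  have h4 : |eval (0 : Fin (n - 1) → ℝ) R| ≤ 2 ^ bb := by
    have e1 : eval (0 : Fin (n - 1) → ℝ) R = coeff 0 R := by
      rw [← constantCoeff_eq, ← eval_zero']
      rfl
    rw [e1]
    exact hRc 0
  have h5 : |eval y R| ≤ B * 2 ^ bb := by
    have e1 : eval y R = (eval y R - eval (0 : Fin (n - 1) → ℝ) R) +
      eval (0 : Fin (n - 1) → ℝ) R := by ring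
    rw [e1]
    refine (abs_add_le _ _).trans ?_
    rw [hB]
    nlinarith
  rw [← hR, ← hy] at h1
  have hX : (1 : ℝ) ≤ 2 ^ X := one_le_pow₀ one_le_two
  have hb : (1 : ℝ) ≤ 2 ^ bb := one_le_pow₀ one_le_two
  have h6 : |zt D i j ω n - eval y R| ≤ 1 + B * 2 ^ bb := by
    refine (abs_sub _ _).trans ?_
    linarith
  have h7 : |(2 : ℝ) ^ X * (zt D i j ω n - eval y R)| ≤ 2 ^ X * (1 + B * 2 ^ bb) := by
    rw [abs_mul, abs_of_pos (by positivity)]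
    exact mul_le_mul_of_nonneg_left h6 (by positivity)
  have h8 : |(htA D n K₀ z i j i' j' X bb ω : ℝ)| ≤ (2 + A * 2 ^ bb) + 2 ^ X * (1 + B * 2 ^ bb) := by
    have e1 : (htA D n K₀ z i j i' j' X bb ω : ℝ) = ((htA D n K₀ z i j i' j' X bb ω : ℝ) -
      2 ^ X * (zt D i j ω n - eval y R)) + 2 ^ X * (zt D i j ω n - eval y R) := by ring
    rw [e1]
    exact (abs_add_le _ _).trans (add_le_add h1 h7)
  refine h8.trans ?_
  have e2 : (2 : ℝ) ^ bb ≤ 2 ^ X * 2 ^ bb := le_mul_of_one_le_left (by positivity) hX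
  have e3 : (2 : ℝ) ^ X ≤ 2 ^ X * 2 ^ bb := le_mul_of_one_le_right (by positivity) hb
  have e4 : (1 : ℝ) ≤ 2 ^ X * 2 ^ bb := one_le_mul_of_one_le_of_one_le hX hb
  have e5 := mul_le_mul_of_nonneg_left e2 hA
  nlinarith

/-- **(H2) on a sub-law.** -/
theorem h2_sub (n K : ℕ) (lam gam : ℕ → ℝ) (C₁ : ℝ) (hC₁ : 1 ≤ C₁) (c : ℕ) : ∃ C : ℝ, 1 ≤ C ∧
    ∀ (M : ℕ) (η : ℝ), 2 ≤ M → 0 < η → ∃ (κ₀ : ℝ) (z₀ : ℕ), 0 < κ₀ ∧
    ∀ (J a₀ w₀ z X k w : ℕ) (κ κ' : ℝ) (D : NDat2) (q : D.Ω → ℝ) (π : Pls k) (a : ℕ × ℕ)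
      (an be s S' : ℕ) (ω₀ : D.Ω), z₀ ≤ z → z ≤ X → κ ≤ κ₀ → κ' ≤ 1 → w = w₀ + π.o.2 * z →
      D.Ok2 n K J a₀ w₀ z M lam gam κ C₁ q → D.TmU J w₀ z κ₀ q → D.DMA z M κ' q →
      Plc D n z X c M π → Pln D n z X c M π a → Plg D n z X c M π a an be s S' →
    ∀ (Ω' : Type) [Fintype Ω'] (c₁ : ℝ) (q' : Ω' → ℝ) (f : Ω' → D.Ω), 0 < c₁ → 2 * η ≤ c₁ →
      SubL q c₁ q' f →
    ∀ (S Κ : Type) (N : Ω' → S) (Kp : Ω' → Κ) (F : Finset S) (r : ℝ), (∀ v, 0 < q' v → N v ∈ F) →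
      CH q' (fun v => (N v, Kp v)) (fun v => (D.c (π.o.1 - S' * an) (π.o.2 + S' * be) (f v),
        (D.c π.o.1 π.o.2 (f v), D.T (f v)))) ≤ r →
      CH q' N (fun v => (Kp v, (D.c π.o.1 π.o.2 (f v), D.T (f v)))) ≤
        CH q' N (fun v => (Vd D π q J w ω₀ X a (D.wn J w (f v)),
          (Kp v, (D.c π.o.1 π.o.2 (f v), D.T (f v))))) +
        (2 / c₁ * (C * z + η * X) + 2 * r + η / c₁ * Real.log F.card + 1) := by
  obtain ⟨C, hC, hctx⟩ := h2_ctx n K lam gam C₁ hC₁ c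
  refine ⟨C + 1, by linarith, fun M η hM hη => ?_⟩
  obtain ⟨κa, za, hκa, hctx⟩ := hctx M η hM hη
  obtain ⟨κb, zb, hκb, hev⟩ := gln_ev n K η hη
  refine ⟨min κa κb, za + zb + 1, lt_min hκa hκb, ?_⟩
  intro J a₀ w₀ z X k w κ κ' D q π a an be s S' ω₀ hz hzX hκ hκ' hw hO hU hD hP hPl hG
    Ω' _ c₁ q' f hc₁ hηc hS S Κ N Kp F r hF hr
  have hz1 : 1 ≤ z := by omega
  have hzr : (1 : ℝ) ≤ z := by exact_mod_cast hz1
  have hq := hO.isLaw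
  have ha2 : a.2 ≤ M := by
    have h1 := hG.a_eq
    have h2 := hP.o_lt.2
    rw [h1]
    omega
  have hUb : D.TmU J w₀ z κb q := TmU_mono hU (min_le_right _ _)
  have e1 := hev J a₀ w₀ z M X c k lam gam κ κb C₁ D q π a (by omega) le_rfl hO hUb hP
    hPl.a_lt.le ha2
  have hc1 := Pool.VAS.sub_c1 hq hc₁ hS
  have e2 := Pool.MIC.Pb_not hq.sum_one (Gln D n w₀ J z π a)
  have e3 := hctx J a₀ w₀ z X k w κ κ' D q π a an be s S' ω₀ (by omega) hzX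
    (hκ.trans (min_le_left _ _)) hκ' hw hO hD hP hPl hG (by linarith)
  have e4 := mi_sub hq hc₁ hS (Gln D n w₀ J z π a) _ (fun ω => Vd D π q J w ω₀ X a (D.wn J w ω)) _
    (by positivity) e1 hηc e3 N Kp F hF hr
  refine e4.trans ?_
  have hl2 : Real.log 2 ≤ 1 := by linarith [Real.log_two_lt_d9]
  have e5 : C * z + η * X + Real.log 2 ≤ (C + 1) * z + η * X := by linarith
  have e6 := mul_le_mul_of_nonneg_left e5 (show 0 ≤ 2 / c₁ by positivity)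
  linarith

/-- **(H2) for the sheets of a cell.** -/
theorem h2_sh (n K K₀ : ℕ) (lam gam : ℕ → ℝ) (C₁ : ℝ) (hn : 1 ≤ n) (hC₁ : 1 ≤ C₁)
    (hK : K * (K + 1) ^ n ≤ K₀) (c : ℕ) : ∃ C : ℝ, 1 ≤ C ∧
    ∀ (M : ℕ) (η : ℝ), 2 ≤ M → 0 < η → ∃ (κ₀ : ℝ) (z₀ : ℕ), 0 < κ₀ ∧
    ∀ (J a₀ w₀ z X k N bb : ℕ) (κ κ' ι : ℝ) (D : NDat2) (q : D.Ω → ℝ) (π : Pls k) (a : ℕ × ℕ)
      (an be s S' : ℕ) (ω₀ : D.Ω), z₀ ≤ z → z ≤ X → κ ≤ κ₀ → κ' ≤ 1 →
      D.Ok2 n K J a₀ w₀ z M lam gam κ C₁ q → D.TmU J w₀ z κ₀ q → D.DMA z M κ' q →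
      Plc D n z X c M π → Pln D n z X c M π a → Plg D n z X c M π a an be s S' →
      Fat D n π.o.1 π.o.2 (π.o.1 - S' * an) (π.o.2 + S' * be) →
      D.g π.o.1 π.o.2 n + X ≤ D.g (π.o.1 - S' * an) (π.o.2 + S' * be) n → 1 ≤ bb →
      C * z + C * bb + η * X + C * X * Pb q (fun ω => ¬ Gdk D n K₀ z π.o.1 π.o.2
        (π.o.1 - S' * an) (π.o.2 + S' * be) X bb ω) ≤ ι * X →
      (shA D π q J (w₀ + π.o.2 * z) ω₀ n X N K₀ z bb
        (π.o.1 - S' * an, π.o.2 + S' * be) a).H2 ι := by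
  classical
  obtain ⟨C₂, hC₂, hsub⟩ := h2_sub n K lam gam C₁ hC₁ c
  obtain ⟨C₃, hC₃, hfew⟩ := ht_few n K K₀ hn hK
  obtain ⟨A, hA, hrng⟩ := ht_rng n K₀
  obtain ⟨L, hL⟩ : ∃ L : ℝ, L = Real.log (2 * A + 3) := ⟨_, rfl⟩
  have hL0 : 0 ≤ L := by
    rw [hL]
    exact Real.log_nonneg (by linarith)
  refine ⟨2 * C₂ + 2 * C₃ + L + 2, by linarith, fun M η hM hη => ?_⟩
  obtain ⟨η₁, hη₁⟩ : ∃ η₁ : ℝ, η₁ = min (η / 3) (1 / 2) := ⟨_, rfl⟩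
  have h1 : 0 < η₁ := by
    rw [hη₁]
    exact lt_min (by positivity) (by norm_num)
  have h2 : η₁ ≤ η / 3 := by
    rw [hη₁]
    exact min_le_left _ _
  have h3 : η₁ ≤ 1 / 2 := by
    rw [hη₁]
    exact min_le_right _ _
  obtain ⟨κ₀, z₀, hκ₀, hsub⟩ := hsub M η₁ hM h1
  refine ⟨κ₀, z₀ + 1, hκ₀, ?_⟩
  intro J a₀ w₀ z X k N bb κ κ' ι D q π a an be s S' ω₀ hz hzX hκ hκ' hO hU hD hP hPl hG hF hgn
    hbb hι
  have hq := hO.isLaw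
  have hz1 : 1 ≤ z := by omega
  have hzr : (1 : ℝ) ≤ z := by exact_mod_cast hz1
  have hol := hP.o_lt
  have ho1 : π.o.1 ≤ M := hol.1.le
  have ho2 : π.o.2 ≤ M := hol.2.le
  have hp1 : π.o.1 - S' * an ≤ M := (Nat.sub_le _ _).trans ho1
  have hp2 : π.o.2 + S' * be ≤ M := hG.o2.le
  obtain ⟨w, hw⟩ : ∃ w, w = w₀ + π.o.2 * z := ⟨_, rfl⟩
  obtain ⟨P, hPP⟩ : ∃ P, P = Pb q (fun ω => ¬ Gdk D n K₀ z π.o.1 π.o.2
        (π.o.1 - S' * an) (π.o.2 + S' * be) X bb ω) := ⟨_, rfl⟩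
  rw [← hPP] at hι
  obtain ⟨Nf, hNf⟩ : ∃ Nf, Nf = htA D n K₀ z π.o.1 π.o.2 (π.o.1 - S' * an) (π.o.2 + S' * be)
    X bb := ⟨_, rfl⟩
  obtain ⟨Kf, hKf⟩ : ∃ Kf, Kf = kpA D n K₀ z π.o.1 π.o.2 (π.o.1 - S' * an) (π.o.2 + S' * be)
    X bb := ⟨_, rfl⟩
  obtain ⟨V, hV⟩ : ∃ V, V = fun ω => Vd D π q J w ω₀ X a (D.wn J w ω) := ⟨_, rfl⟩
  -- few
  have k1 : CH q (fun ω => (Nf ω, Kf ω)) (fun ω => (D.c (π.o.1 - S' * an) (π.o.2 + S' * be) ω,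
      (D.c π.o.1 π.o.2 ω, D.T ω))) ≤ C₃ * bb + C₃ * X * P := by
    have e1 := CH_chain hq.nonneg Nf Kf (fun ω => (D.c (π.o.1 - S' * an) (π.o.2 + S' * be) ω,
      (D.c π.o.1 π.o.2 ω, D.T ω)))
    have ds : Det q (fun ω => (D.c (π.o.1 - S' * an) (π.o.2 + S' * be) ω,
        (D.c π.o.1 π.o.2 ω, D.T ω))) (fun ω => (D.s (π.o.1 - S' * an) (π.o.2 + S' * be) ω,
        (D.c π.o.1 π.o.2 ω, D.T ω))) := by
      intro ω ω' hω hω' e
      simp only [Prod.mk.injEq] at e ⊢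
      exact ⟨hO.s_c _ hp1 _ hp2 ω ω' hω hω' (Prod.ext e.1 e.2.2), e.2⟩
    have e2 : CH q Kf (fun ω => (D.c (π.o.1 - S' * an) (π.o.2 + S' * be) ω,
        (D.c π.o.1 π.o.2 ω, D.T ω))) = 0 := by
      refine CH_eq_zero hq.nonneg fun ω ω' hω hω' e => ?_
      have e3 := ds ω ω' hω hω' e
      simp only [Prod.mk.injEq] at e3
      rw [hKf]
      exact (kpA_same (ss_same hO e3.1 e3.2.1 e3.2.2 X) K₀ z bb).2.2
    have e4 : CH q Nf (fun ω => (Kf ω, (D.c (π.o.1 - S' * an) (π.o.2 + S' * be) ω,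
        (D.c π.o.1 π.o.2 ω, D.T ω)))) ≤ CH q Nf (fun ω =>
        (D.s (π.o.1 - S' * an) (π.o.2 + S' * be) ω, (D.c π.o.1 π.o.2 ω, D.T ω))) :=
      CH_mono_cond hq.nonneg fun ω ω' hω hω' e => ds ω ω' hω hω' (Prod.ext_iff.1 e).2
    have e5 := hfew hO ho1 ho2 hp1 hp2 hF (hz1.trans hzX) hgn hbb
    rw [← hNf, ← hPP] at e5
    linarith
  -- the range
  obtain ⟨B, hB⟩ : ∃ B : ℕ, B = ⌈A * (2 ^ X * 2 ^ bb)⌉₊ := ⟨_, rfl⟩
  have hB1 : A * (2 ^ X * 2 ^ bb) ≤ B := by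
    rw [hB]
    exact Nat.le_ceil _
  have hB2 : (B : ℝ) < A * (2 ^ X * 2 ^ bb) + 1 := by
    rw [hB]
    exact Nat.ceil_lt_add_one (by positivity)
  have hF' : ∀ ω, 0 < q ω → Nf ω ∈ Finset.Icc (-(B : ℤ)) B := by
    intro ω hω
    have e1 := hrng K J a₀ w₀ z M lam gam κ C₁ D q hO π.o.1 π.o.2 (π.o.1 - S' * an)
      (π.o.2 + S' * be) X bb ω ho1 ho2 hω
    rw [← hNf] at e1
    have e2 := abs_le.1 (e1.trans hB1)
    rw [Finset.mem_Icc]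
    constructor
    · exact_mod_cast e2.1
    · exact_mod_cast e2.2
  have hcard : Real.log ((Finset.Icc (-(B : ℤ)) B).card : ℝ) ≤ X + bb + L := by
    have e1 : ((Finset.Icc (-(B : ℤ)) B).card : ℝ) = 2 * B + 1 := by
      rw [Int.card_Icc]
      have : ((B : ℤ) + 1 - -(B : ℤ)).toNat = 2 * B + 1 := by omega
      rw [this]
      push_cast
      ring
    have hX : (1 : ℝ) ≤ 2 ^ X := one_le_pow₀ one_le_two
    have hb : (1 : ℝ) ≤ 2 ^ bb := one_le_pow₀ one_le_two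
    have e2 : (1 : ℝ) ≤ 2 ^ X * 2 ^ bb := one_le_mul_of_one_le_of_one_le hX hb
    have e3 : (2 : ℝ) * B + 1 ≤ (2 * A + 3) * (2 ^ X * 2 ^ bb) := by nlinarith
    have hl2 : Real.log 2 ≤ 1 := by linarith [Real.log_two_lt_d9]
    rw [e1]
    refine (Real.log_le_log (by positivity) e3).trans ?_
    rw [Real.log_mul (by positivity) (by positivity),
      Real.log_mul (by positivity) (by positivity), Real.log_pow, Real.log_pow, ← hL]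
    have e4 := mul_le_mul_of_nonneg_left hl2 (Nat.cast_nonneg X (α := ℝ))
    have e5 := mul_le_mul_of_nonneg_left hl2 (Nat.cast_nonneg bb (α := ℝ))
    linarith
  -- the law q
  have hS : SubL q 1 q id := by
    refine ⟨hq, fun ω => ?_⟩
    have e1 : law q id ω = q ω := by
      unfold law
      rw [Finset.sum_eq_single ω]
      · simp
      · intro b _ hb
        rw [if_neg]
        exact hb
      · intro h
        exact absurd (Finset.mem_univ _) h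
    rw [e1, one_mul]
  have k2 := hsub J a₀ w₀ z X k w κ κ' D q π a an be s S' ω₀ (by omega) hzX hκ hκ' hw hO hU hD
    hP hPl hG D.Ω 1 q id one_pos (by linarith) hS ℤ (Pl (n - 1)) Nf Kf _ _ hF' k1
  simp only [id_eq, div_one] at k2
  have k3 : CH q Nf (fun ω => (Kf ω, (D.c π.o.1 π.o.2 ω, D.T ω))) ≤
      CH q Nf (fun ω => (V ω, (Kf ω, (D.c π.o.1 π.o.2 ω, D.T ω)))) +
      (2 * (C₂ * z + η₁ * X) + 2 * (C₃ * bb + C₃ * X * P) +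
        η₁ * Real.log ((Finset.Icc (-(B : ℤ)) B).card : ℝ) + 1) := by
    rw [hV]
    exact k2
  -- the chart of the data
  have d1 : Det q (fun ω => (D.c π.o.1 π.o.2 ω, (thr D J w ω, Kf ω)))
      (fun ω => (Kf ω, (D.c π.o.1 π.o.2 ω, D.T ω))) := by
    intro ω ω' hω hω' e
    simp only [Prod.mk.injEq] at e ⊢
    refine ⟨e.2.2, e.1, ?_⟩
    have h1 : D.T ω / 2 ^ (J - w) = D.T ω' / 2 ^ (J - w) := by
      rw [hw]
      exact hO.c_T _ ho1 _ ho2 ω ω' hω hω' e.1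
    have h2 : D.T ω % 2 ^ (J - w) = D.T ω' % 2 ^ (J - w) := e.2.1
    rw [← Nat.div_add_mod (D.T ω) (2 ^ (J - w)), ← Nat.div_add_mod (D.T ω') (2 ^ (J - w)), h1, h2]
  have d2 : Det q (fun ω => (Kf ω, (D.c π.o.1 π.o.2 ω, D.T ω)))
      (fun ω => (D.c π.o.1 π.o.2 ω, (thr D J w ω, Kf ω))) := by
    intro ω ω' _ _ e
    simp only [Prod.mk.injEq] at e ⊢
    refine ⟨e.2.1, ?_, e.1⟩
    unfold thr
    rw [e.2.2]
  have c1 : CH q Nf (fun ω => (D.c π.o.1 π.o.2 ω, (thr D J w ω, Kf ω))) ≤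
      CH q Nf (fun ω => (Kf ω, (D.c π.o.1 π.o.2 ω, D.T ω))) := CH_mono_cond hq.nonneg d1
  have c2 : CH q Nf (fun ω => (V ω, (Kf ω, (D.c π.o.1 π.o.2 ω, D.T ω)))) ≤
      CH q Nf (fun ω => (V ω, (D.c π.o.1 π.o.2 ω, (thr D J w ω, Kf ω)))) :=
    CH_mono_cond hq.nonneg fun ω ω' hω hω' e => by
      have e1 := Prod.ext_iff.1 e
      exact Prod.ext e1.1 (d2 ω ω' hω hω' e1.2)
  have c3 := CH_chain hq.nonneg Nf V (fun ω => (D.c π.o.1 π.o.2 ω, (thr D J w ω, Kf ω)))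
  have goal' : Pool.KVA.MI q Nf V (fun ω => (D.c π.o.1 π.o.2 ω, (thr D J w ω, Kf ω))) ≤
      ι * X := by
    unfold Pool.KVA.MI
    have hX0 : (0 : ℝ) ≤ X := Nat.cast_nonneg X
    have hb0 : (1 : ℝ) ≤ bb := by exact_mod_cast hbb
    have hP0 : 0 ≤ P := by
      rw [hPP]
      exact Pool.MIC.Pb_nonneg hq.nonneg _
    have hXP : 0 ≤ (X : ℝ) * P := mul_nonneg hX0 hP0
    have m1 : η₁ * Real.log ((Finset.Icc (-(B : ℤ)) B).card : ℝ) ≤ η₁ * (X + bb + L) :=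
      mul_le_mul_of_nonneg_left hcard h1.le
    have m2 : η₁ * (X : ℝ) ≤ η / 3 * X := mul_le_mul_of_nonneg_right h2 hX0
    have m3 : η₁ * ((bb : ℝ) + L) ≤ 1 / 2 * (bb + L) :=
      mul_le_mul_of_nonneg_right h3 (by linarith)
    have m4 : L ≤ L * z := le_mul_of_one_le_right hL0 hzr
    have m5 : 0 ≤ L * bb := by positivity
    have m6 : 0 ≤ C₂ * bb := by positivity
    have m7 : 0 ≤ C₃ * z := by positivity
    have m8 : 0 ≤ C₂ * (X * P) := by positivity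
    have m9 : 0 ≤ L * (X * P) := by positivity
    nlinarith
  rw [hNf, hV, hKf] at goal'
  rw [hw] at goal'
  exact goal'

end Pool.LSH
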