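import Pool.Agent.H7.MIC.LLd

/-!
# Information through digits

`mi_thr`: the information of `A` and `V`, where `V` is a context `Ca` and digits, through other
digits `H`. `mi_own`: what `A` says on `V` bounds what the own height `N` says on `V` given the own
shape `K`.
-/

set_option autoImplicit false

namespace Pool.LSH

open Finset Real
open Pool.Agent.H49.Ent Pool.Agent.H32.Dense Pool.STK Pool.STAT Pool.MIC
open Pool.BFL (Pb)

variable {Ω S T U A' V' N' K' : Type} [Fintype Ω] {p : Ω → ℝ}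

theorem CH_fam (hp : ∀ ω, 0 ≤ p ω) (W : Ω → T) :
    ∀ (m : ℕ) (X : Fin m → Ω → S), CH p (fun ω i => X i ω) W ≤ ∑ i, CH p (X i) W := by
  intro m
  induction m with
  | zero =>
    intro X
    rw [Finset.univ_eq_empty, Finset.sum_empty, CH_eq_zero hp]
    intro ω ω' _ _ _
    exact Subsingleton.elim _ _
  | succ n ih =>
    intro X
    rw [Fin.sum_univ_succ]
    have h1 : CH p (fun ω i => X i ω) W ≤ CH p (fun ω => (X 0 ω, fun i : Fin n => X i.succ ω)) W := by
      refine CH_mono_left hp fun ω ω' _ _ e => ?_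
      have e1 := (Prod.ext_iff.mp e).1
      funext i
      refine Fin.cases ?_ (fun j => ?_) i
      · exact (Prod.ext_iff.mp e1).1
      · exact congrFun (Prod.ext_iff.mp e1).2 j
    have h2 := CH_subadd hp (X 0) (fun ω (i : Fin n) => X i.succ ω) W
    have h3 := ih (fun i => X i.succ)
    linarith

/-- The information of `Z` on `X` is at most the entropy of `Z`. -/
theorem mi_le (hp : ∀ ω, 0 ≤ p ω) (X : Ω → S) (Z : Ω → T) (W : Ω → U) :
    CH p X W ≤ CH p X (fun ω => (Z ω, W ω)) + CH p Z W := by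
  have h1 := CH_le_add hp X Z W
  linarith

/-- **Through digits.** -/
theorem mi_thr {C' H' h' W' : Type} (hp : ∀ ω, 0 ≤ p ω) (A : Ω → A') (V : Ω → V') (Ca : Ω → C')
    (H : Ω → H') (hn : Ω → h') (W : Ω → W') (hV : Det p V (fun ω => (hn ω, Ca ω)))
    {k₁ k₂ k₃ k₄ : ℝ} (m1 : CH p Ca W ≤ CH p Ca (fun ω => (A ω, W ω)) + k₁)
    (m2 : CH p H (fun ω => (Ca ω, W ω)) ≤ CH p H (fun ω => (A ω, (Ca ω, W ω))) + k₂)
    (m3 : CH p V (fun ω => (H ω, (Ca ω, W ω))) ≤ k₃)
    (m4 : CH p H (fun ω => (hn ω, (Ca ω, W ω))) ≤ k₄) :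
    CH p A W ≤ CH p A (fun ω => (V ω, W ω)) + (k₁ + k₂ + k₃ + k₄) := by
  have s := NDat2.mi_symm hp A V W
  have a1 := CH_le_add hp V Ca W
  have a2 := CH_le_add hp V H (fun ω => (Ca ω, W ω))
  -- from below
  have b1 : CH p (fun ω => (hn ω, Ca ω)) (fun ω => (A ω, W ω)) ≤
      CH p V (fun ω => (A ω, W ω)) :=
    CH_mono_left hp fun ω ω' h1 h2 e => hV ω ω' h1 h2 (Prod.ext_iff.1 e).1
  have b2 := CH_chain hp hn Ca (fun ω => (A ω, W ω))
  have b3 := CH_le_add hp H hn (fun ω => (Ca ω, (A ω, W ω)))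
  have b4 : CH p H (fun ω => (hn ω, (Ca ω, (A ω, W ω)))) ≤
      CH p H (fun ω => (hn ω, (Ca ω, W ω))) :=
    CH_mono_cond hp fun ω ω' _ _ e => by
      simp only [Prod.mk.injEq] at e ⊢
      exact ⟨e.1, e.2.1, e.2.2.2⟩
  have b5 : CH p H (fun ω => (A ω, (Ca ω, W ω))) ≤ CH p H (fun ω => (Ca ω, (A ω, W ω))) :=
    CH_mono_cond hp fun ω ω' _ _ e => by
      simp only [Prod.mk.injEq] at e ⊢
      exact ⟨e.2.1, e.1, e.2.2⟩
  linarith

/-- **The own height.** -/
theorem mi_own {W' : Type} (hp : ∀ ω, 0 ≤ p ω) (A : Ω → A') (V : Ω → V') (N : Ω → N') (K : Ω → K')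
    (W : Ω → W') {m r : ℝ} (h : CH p A W ≤ CH p A (fun ω => (V ω, W ω)) + m)
    (hr : CH p (fun ω => (N ω, K ω)) (fun ω => (A ω, W ω)) ≤ r) :
    CH p N (fun ω => (K ω, W ω)) ≤ CH p N (fun ω => (V ω, (K ω, W ω))) + (m + r) := by
  have s1 := NDat2.mi_symm hp A V W
  have s2 := NDat2.mi_symm hp N V (fun ω => (K ω, W ω))
  have a1 := mi_le hp V (fun ω => (N ω, K ω)) (fun ω => (A ω, W ω))
  have a2 : CH p V (fun ω => ((N ω, K ω), (A ω, W ω))) ≤ CH p V (fun ω => (N ω, (K ω, W ω))) :=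
    CH_mono_cond hp fun ω ω' _ _ e => by
      simp only [Prod.mk.injEq] at e ⊢
      exact ⟨e.1.1, e.1.2, e.2.2⟩
  have a3 : CH p V (fun ω => (K ω, W ω)) ≤ CH p V W :=
    CH_mono_cond hp fun ω ω' _ _ e => (Prod.ext_iff.1 e).2
  linarith

/-- Information given an event, conditional. -/
theorem mi_cnd (hp : IsLaw p) {W' : Type} (X : Ω → S) (Y : Ω → T) (W : Ω → W') {m : ℝ}
    (h : CH p X W ≤ CH p X (fun ω => (Y ω, W ω)) + m) (hm : 0 ≤ m) (E : Ω → Prop)
    (hE : 1 / 2 ≤ Pb p E) : CH (cond p E True) X W ≤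
      CH (cond p E True) X (fun ω => (Y ω, W ω)) + 2 * (m + Real.log 2) := by
  have h1 := mi_event hp X W (fun ω => (Y ω, W ω))
    (fun ω ω' _ _ e => (Prod.ext_iff.1 e).2) h E
  have hE0 : 0 < Pb p E := by linarith
  have l0 : 0 ≤ Real.log 2 := Real.log_nonneg (by norm_num)
  have h2 : Pb p E * (CH (cond p E True) X W) ≤ Pb p E *
      (CH (cond p E True) X (fun ω => (Y ω, W ω)) + 2 * (m + Real.log 2)) := by
    rw [mul_add]
    have h3 : m + Real.log 2 ≤ Pb p E * (2 * (m + Real.log 2)) := by nlinarith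
    linarith
  exact le_of_mul_le_mul_left h2 hE0

/-- Few values given an event. -/
theorem few_cnd (hp : IsLaw p) (X : Ω → S) (W : Ω → T) {m : ℝ} (h : CH p X W ≤ m)
    (E : Ω → Prop) (hE : 1 / 2 ≤ Pb p E) : CH (cond p E True) X W ≤ 2 * m := by
  have h1 := CH_ev_le hp.nonneg X W E
  have hE0 : 0 < Pb p E := by linarith
  have hm : 0 ≤ m := (CH_nonneg hp.nonneg _ _).trans h
  have h2 : Pb p E * CH (cond p E True) X W ≤ Pb p E * (2 * m) := by nlinarith
  exact le_of_mul_le_mul_left h2 hE0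

/-- Integer vectors which are near to each other given `y`. -/
theorem few_int {ι Y : Type} [Fintype ι] (hp : IsLaw p) (f : Ω → ι → ℤ) (y : Ω → Y) (R : ℕ)
    (h : ∀ ω ω', 0 < p ω → 0 < p ω' → y ω = y ω' → ∀ i, |f ω i - f ω' i| ≤ R) :
    CH p f y ≤ Fintype.card ι * Real.log (2 * R + 1) := by
  classical
  set F : Y → Finset (ι → ℤ) := fun w =>
    if hw : ∃ ω, 0 < p ω ∧ y ω = w then
      Fintype.piFinset fun i => Finset.Icc (f hw.choose i - R) (f hw.choose i + R) else ∅ with hF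
  have h1 := CH_le_card hp.nonneg hp.sum_one f y F (fun ω hω => by
    have hw : ∃ ω', 0 < p ω' ∧ y ω' = y ω := ⟨ω, hω, rfl⟩
    rw [hF]
    simp only
    rw [dif_pos hw, Fintype.mem_piFinset]
    intro i
    have := h ω hw.choose hω hw.choose_spec.1 hw.choose_spec.2.symm i
    rw [abs_le] at this
    rw [mem_Icc]
    constructor <;> linarith [this.1, this.2])
  refine h1.trans ?_
  rw [← Ex_const hp.sum_one (Fintype.card ι * Real.log (2 * R + 1))]
  refine Ex_mono hp.nonneg fun ω hω => ?_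
  have hw : ∃ ω', 0 < p ω' ∧ y ω' = y ω := ⟨ω, hω, rfl⟩
  rw [hF]
  simp only
  rw [dif_pos hw, Fintype.card_piFinset]
  have e : ∀ i : ι, (Finset.Icc (f hw.choose i - R) (f hw.choose i + R)).card = 2 * R + 1 := by
    intro i
    rw [Int.card_Icc]
    omega
  simp only [e]
  rw [Finset.prod_const, Finset.card_univ]
  push_cast
  rw [Real.log_pow]

end Pool.LSH
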